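import Mathlib
import Pool.Agent.H27.RC.Stmts

/-!
Module Q3 of the project RC (MP_c00d13_an): from dimension functions to averages along orbits.
-/

open scoped ENNReal NNReal InnerProductSpace ComplexOrder
open Filter Topology
open Pool.Agent.H27.RC

noncomputable section

namespace Pool.Agent.H24.RC

section entries

variable {n : ℕ}

theorem entry_diag (T : Hil n →L[ℂ] Hil n) (p : ℤ × Fin n) :
    entry T p p = ⟪del p, T (del p)⟫_ℂ := by
  classical
  unfold entry del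
  rw [lp.inner_single_left]
  simp

theorem norm_del (p : ℤ × Fin n) : ‖(del p : Hil n)‖ = 1 := by
  classical
  unfold del
  rw [lp.norm_single (by norm_num)]
  simp

theorem entry_add (S T : Hil n →L[ℂ] Hil n) (p q : ℤ × Fin n) :
    entry (S + T) p q = entry S p q + entry T p q := rfl

theorem entry_smul (c : ℂ) (T : Hil n →L[ℂ] Hil n) (p q : ℤ × Fin n) :
    entry (c • T) p q = c * entry T p q := rfl

theorem entry_one_diag (p : ℤ × Fin n) : entry (1 : Hil n →L[ℂ] Hil n) p p = 1 := by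
  rw [entry_diag]
  simp [norm_del]

theorem entry_diag_nonneg {T : Hil n →L[ℂ] Hil n} (hT : 0 ≤ T) (p : ℤ × Fin n) :
    0 ≤ entry T p p := by
  rw [entry_diag]
  rw [ContinuousLinearMap.nonneg_iff_isPositive] at hT
  exact hT.inner_nonneg_right _

end entries

section model

variable {X : Type} [TopologicalSpace X] {h : X ≃ₜ X} {n : ℕ}
  {𝒜 : Type} [CStarAlgebra 𝒜] (M : Model h n 𝒜)

theorem tr0_add (S T : 𝒜) (x : X) : tr0 M (S + T) x = tr0 M S x + tr0 M T x := by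
  unfold tr0
  rw [← Finset.sum_add_distrib]
  refine Finset.sum_congr rfl fun e _ => ?_
  rw [map_add, entry_add, Complex.add_re]

theorem tr0_smul (c : ℝ) (T : 𝒜) (x : X) : tr0 M (c • T) x = c * tr0 M T x := by
  unfold tr0
  rw [Finset.mul_sum]
  refine Finset.sum_congr rfl fun e _ => ?_
  have : c • T = (c : ℂ) • T := by simp
  rw [this, map_smul, entry_smul, Complex.re_ofReal_mul]

theorem tr0_one (x : X) : tr0 M (1 : 𝒜) x = n := by
  unfold tr0
  simp [map_one, entry_one_diag]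

variable [PartialOrder 𝒜] [StarOrderedRing 𝒜]

theorem fib_nonneg {T : 𝒜} (hT : 0 ≤ T) (x : X) : 0 ≤ M.fib x T := map_nonneg (M.fib x) hT

theorem tr0_mono {S T : 𝒜} (hST : S ≤ T) (x : X) : tr0 M S x ≤ tr0 M T x := by
  have h1 : T = S + (T - S) := by abel
  rw [h1, tr0_add]
  have h2 : 0 ≤ tr0 M (T - S) x := by
    unfold tr0
    refine Finset.sum_nonneg fun e _ => ?_
    have := entry_diag_nonneg (fib_nonneg M (sub_nonneg.2 hST) x) (0, e)
    exact (Complex.le_def.1 this).1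
  linarith

end model

/-! ### The abstract limit argument -/

section abstract

variable {𝒜 : Type} [CStarAlgebra 𝒜] [PartialOrder 𝒜] [StarOrderedRing 𝒜]

/-- A positive functional (only its real part matters). -/
structure PosFun (τ : 𝒜 → ℝ) : Prop where
  mono : ∀ S T, S ≤ T → τ S ≤ τ T
  add : ∀ S T, τ (S + T) = τ S + τ T
  smul : ∀ (c : ℝ) T, τ (c • T) = c * τ T

variable {τ : 𝒜 → ℝ}

theorem clamp_of_mem {t : ℝ} (h0 : 0 ≤ t) (h1 : t ≤ 1) : clamp t = t := by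
  unfold clamp
  rw [max_eq_right h0, min_eq_right h1]

theorem clamp_nonneg (t : ℝ) : 0 ≤ clamp t := le_min zero_le_one (le_max_left _ _)

theorem clamp_le_one (t : ℝ) : clamp t ≤ 1 := min_le_left _ _

theorem continuous_clamp : Continuous clamp :=
  continuous_const.min (continuous_const.max continuous_id)

theorem continuous_clamp_rpow {y : ℝ} (hy : 0 ≤ y) : Continuous fun t => clamp t ^ y :=
  continuous_clamp.rpow_const fun _ => Or.inr hy

theorem spec_scaled {a : 𝒜} (ha : 0 ≤ a) {c : ℝ} (hc : 0 < c) (hac : ‖a‖ ≤ c) {t : ℝ}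
    (ht : t ∈ spectrum ℝ ((c⁻¹ : ℝ) • a)) : 0 ≤ t ∧ t ≤ 1 := by
  have h1 : 0 ≤ (c⁻¹ : ℝ) • a := smul_nonneg (by positivity) ha
  refine ⟨spectrum_nonneg_of_nonneg h1 ht, ?_⟩
  have h2 : ‖(c⁻¹ : ℝ) • a‖ ≤ 1 := by
    rw [norm_smul, Real.norm_of_nonneg (by positivity)]
    rw [inv_mul_le_iff₀ hc]
    linarith
  have h3 := spectrum.norm_le_norm_mul_of_mem ht
  rcases subsingleton_or_nontrivial 𝒜 with hs | hn
  · exfalso
    rw [spectrum.of_subsingleton] at ht
    exact ht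
  · rw [norm_one, mul_one] at h3
    exact (le_abs_self t).trans (h3.trans h2)

/-- the approximants `(a/c)^{1/k}`. -/
def apx (c : ℝ) (a : 𝒜) (k : ℕ) : 𝒜 := cfcC (fun t => clamp t ^ (1 / (k : ℝ))) ((c⁻¹ : ℝ) • a)

theorem rpowC_eq {a : 𝒜} (ha : 0 ≤ a) {c : ℝ} (hc : 0 < c) (hac : ‖a‖ ≤ c) (k : ℕ) :
    rpowC a (1 / (k : ℝ)) = (c ^ (1 / (k : ℝ))) • apx c a k := by
  unfold rpowC apx cfcC
  have hy : (0 : ℝ) ≤ 1 / (k : ℝ) := by positivity
  have h1 : 0 ≤ (c⁻¹ : ℝ) • a := smul_nonneg (by positivity) ha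
  have hsa : IsSelfAdjoint ((c⁻¹ : ℝ) • a) := h1.isSelfAdjoint
  rw [CFC.rpow_eq_cfc_real ha]
  rw [← cfc_smul (c ^ (1 / (k : ℝ))) (fun t => clamp t ^ (1 / (k : ℝ))) ((c⁻¹ : ℝ) • a)
    ((continuous_clamp_rpow hy).continuousOn)]
  have h2 : a = c • ((c⁻¹ : ℝ) • a) := by
    rw [smul_smul, mul_inv_cancel₀ hc.ne', one_smul]
  conv_lhs => rw [h2]
  have hcont : Continuous fun t : ℝ => t ^ (1 / (k : ℝ)) :=
    continuous_id.rpow_const fun _ => Or.inr hy
  rw [← cfc_comp_smul c (fun t : ℝ => t ^ (1 / (k : ℝ))) ((c⁻¹ : ℝ) • a) hcont.continuousOn hsa]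
  refine cfc_congr fun t ht => ?_
  obtain ⟨h3, h4⟩ := spec_scaled ha hc hac ht
  simp only [smul_eq_mul]
  rw [clamp_of_mem h3 h4, Real.mul_rpow hc.le h3]

theorem apx_mono {a : 𝒜} (ha : 0 ≤ a) {c : ℝ} (hc : 0 < c) (hac : ‖a‖ ≤ c) {k m : ℕ}
    (hk : 1 ≤ k) (hkm : k ≤ m) : apx c a k ≤ apx c a m := by
  unfold apx cfcC
  have h1 : 0 ≤ (c⁻¹ : ℝ) • a := smul_nonneg (by positivity) ha
  have hsa : IsSelfAdjoint ((c⁻¹ : ℝ) • a) := h1.isSelfAdjoint
  refine cfc_mono (fun t ht => ?_) (continuous_clamp_rpow (by positivity)).continuousOn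
    (continuous_clamp_rpow (by positivity)).continuousOn
  obtain ⟨h3, h4⟩ := spec_scaled ha hc hac ht
  rw [clamp_of_mem h3 h4]
  rcases eq_or_lt_of_le h3 with h5 | h5
  · rw [← h5]
    have hk' : (1 / (k : ℝ)) ≠ 0 := by positivity
    rw [Real.zero_rpow hk']
    positivity
  · refine Real.rpow_le_rpow_of_exponent_ge h5 h4 ?_
    have : (k : ℝ) ≤ m := by exact_mod_cast hkm
    have : (1 : ℝ) ≤ k := by exact_mod_cast hk
    exact one_div_le_one_div_of_le (by linarith) (by assumption)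

theorem apx_le_one {a : 𝒜} (ha : 0 ≤ a) {c : ℝ} (hc : 0 < c) (k : ℕ) : apx c a k ≤ 1 := by
  unfold apx cfcC
  have h1 : 0 ≤ (c⁻¹ : ℝ) • a := smul_nonneg (by positivity) ha
  have hsa : IsSelfAdjoint ((c⁻¹ : ℝ) • a) := h1.isSelfAdjoint
  refine cfc_le_one _ _ fun t _ => ?_
  exact Real.rpow_le_one (clamp_nonneg t) (clamp_le_one t) (by positivity)

theorem cut_le_apx {a : 𝒜} (ha : 0 ≤ a) {c : ℝ} (hc : 0 < c) (hac : ‖a‖ ≤ c) {κ : ℝ} (hκ : 0 < κ)
    {δ : ℝ} (hδ : 0 < δ) : ∃ k : ℕ, 1 ≤ k ∧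
      cfcC (fun t => clamp (t / κ)) ((c⁻¹ : ℝ) • a) ≤ apx c a k + δ • (1 : 𝒜) := by
  have h1 : 0 ≤ (c⁻¹ : ℝ) • a := smul_nonneg (by positivity) ha
  have hsa : IsSelfAdjoint ((c⁻¹ : ℝ) • a) := h1.isSelfAdjoint
  have hcl : Continuous fun t : ℝ => clamp (t / κ) :=
    continuous_clamp.comp (continuous_id.div_const κ)
  -- the exponent
  have hlim : Tendsto (fun k : ℕ => (δ * κ) ^ (1 / (k : ℝ))) atTop (𝓝 1) := by
    have h2 : Tendsto (fun k : ℕ => 1 / (k : ℝ)) atTop (𝓝 0) :=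
      tendsto_one_div_atTop_nhds_zero_nat
    have h3 := (continuous_const.rpow continuous_id
      (fun _ => Or.inl (mul_pos hδ hκ).ne') : Continuous fun y : ℝ => (δ * κ) ^ y).tendsto 0
    rw [Real.rpow_zero] at h3
    exact h3.comp h2
  obtain ⟨k, hk1, hk2⟩ := ((hlim.eventually (lt_mem_nhds (show 1 - δ < 1 by linarith))).and
    (eventually_ge_atTop 1)).exists
  refine ⟨k, hk2, ?_⟩
  unfold apx cfcC
  have hy : (0 : ℝ) ≤ 1 / (k : ℝ) := by positivity
  have h4 : cfc (fun t => clamp t ^ (1 / (k : ℝ))) ((c⁻¹ : ℝ) • a) + δ • (1 : 𝒜) =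
      cfc (fun t => clamp t ^ (1 / (k : ℝ)) + δ) ((c⁻¹ : ℝ) • a) := by
    rw [cfc_add_const δ _ _ (continuous_clamp_rpow hy).continuousOn, Algebra.algebraMap_eq_smul_one]
  rw [h4]
  refine cfc_mono (fun t ht => ?_) hcl.continuousOn
    ((continuous_clamp_rpow hy).add continuous_const).continuousOn
  obtain ⟨h5, h6⟩ := spec_scaled ha hc hac ht
  rw [clamp_of_mem h5 h6]
  rcases le_total t (δ * κ) with h7 | h7
  · have h8 : clamp (t / κ) ≤ δ := by
      unfold clamp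
      refine (min_le_right _ _).trans (max_le hδ.le ?_)
      rw [div_le_iff₀ hκ]
      exact h7
    have : 0 ≤ t ^ (1 / (k : ℝ)) := by positivity
    linarith
  · have h8 : (δ * κ) ^ (1 / (k : ℝ)) ≤ t ^ (1 / (k : ℝ)) :=
      Real.rpow_le_rpow (by positivity) h7 hy
    have h9 := clamp_le_one (t / κ)
    linarith

theorem PosFun.bound (hτ : PosFun τ) {a : 𝒜} (ha : 0 ≤ a) {c : ℝ} (hc : 0 < c)
    (hac : ‖a‖ ≤ c) : ∃ L : ℝ,
      Tendsto (fun k : ℕ => τ (rpowC a (1 / (k : ℝ)))) atTop (𝓝 L) ∧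
      (∀ κ : ℝ, 0 < κ → τ (cfcC (fun t => clamp (t / κ)) ((c⁻¹ : ℝ) • a)) ≤ L) ∧
      ∀ Q : ℝ, (∀ k : ℕ, 1 ≤ k → τ (apx c a k) ≤ Q) → L ≤ Q := by
  have hmono : Monotone fun k : ℕ => τ (apx c a (k + 1)) := by
    intro k m hkm
    exact hτ.mono _ _ (apx_mono ha hc hac (by omega) (by omega))
  have hbdd : BddAbove (Set.range fun k : ℕ => τ (apx c a (k + 1))) := by
    refine ⟨τ 1, ?_⟩
    rintro _ ⟨k, rfl⟩
    exact hτ.mono _ _ (apx_le_one ha hc _)
  have hlim := tendsto_atTop_ciSup hmono hbdd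
  have hlim2 : Tendsto (fun k : ℕ => τ (apx c a k)) atTop
      (𝓝 (⨆ k : ℕ, τ (apx c a (k + 1)))) :=
    (tendsto_add_atTop_iff_nat (f := fun k => τ (apx c a k)) 1).1 hlim
  have hle : ∀ k : ℕ, 1 ≤ k → τ (apx c a k) ≤ ⨆ k : ℕ, τ (apx c a (k + 1)) := by
    intro k hk
    obtain ⟨j, rfl⟩ : ∃ j, k = j + 1 := ⟨k - 1, by omega⟩
    exact le_ciSup hbdd j
  refine ⟨⨆ k : ℕ, τ (apx c a (k + 1)), ?_, ?_, ?_⟩
  · have h2 : Tendsto (fun k : ℕ => 1 / (k : ℝ)) atTop (𝓝 0) :=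
      tendsto_one_div_atTop_nhds_zero_nat
    have h3 := (continuous_const.rpow continuous_id
      (fun _ => Or.inl hc.ne') : Continuous fun y : ℝ => c ^ y).tendsto 0
    rw [Real.rpow_zero] at h3
    have h4 := (h3.comp h2).mul hlim2
    rw [one_mul] at h4
    refine h4.congr fun k => ?_
    rw [rpowC_eq ha hc hac, hτ.smul]
    rfl
  · intro κ hκ
    refine le_of_forall_pos_le_add fun δ hδ => ?_
    have h1 : 0 ≤ τ 1 := by
      have := hτ.mono 0 1 zero_le_one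
      have h0 : τ 0 = 0 := by simpa using hτ.smul 0 0
      linarith
    obtain ⟨k, hk, hk2⟩ := cut_le_apx ha hc hac hκ (show 0 < δ / (τ 1 + 1) by positivity)
    have h5 := hτ.mono _ _ hk2
    rw [hτ.add, hτ.smul] at h5
    have h6 : δ / (τ 1 + 1) * τ 1 ≤ δ := by
      rw [div_mul_eq_mul_div, div_le_iff₀ (by positivity)]
      nlinarith
    have h7 := hle k hk
    linarith
  · intro Q hQ
    exact ciSup_le fun k => hQ (k + 1) (by omega)

end abstract

/-! ### Invariant states from averages -/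

section states

variable {X : Type} [TopologicalSpace X] [CompactSpace X] (h : X ≃ₜ X)

/-- Birkhoff averages. -/
def Av (N : ℕ) (x : X) (f : C(X, ℂ)) : ℂ :=
  (N : ℂ)⁻¹ * ∑ i ∈ Finset.range N, f ((h ^ (i : ℤ)) x)

theorem norm_Av_le (N : ℕ) (x : X) (f : C(X, ℂ)) : ‖Av h N x f‖ ≤ ‖f‖ := by
  unfold Av
  rcases Nat.eq_zero_or_pos N with rfl | hN
  · simp
  · rw [norm_mul, norm_inv, Complex.norm_natCast]
    have h1 : ‖∑ i ∈ Finset.range N, f ((h ^ (i : ℤ)) x)‖ ≤ N * ‖f‖ := by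
      refine (norm_sum_le _ _).trans ?_
      refine (Finset.sum_le_sum fun i _ => f.norm_coe_le_norm _).trans ?_
      simp
    have hN' : (0 : ℝ) < N := by exact_mod_cast hN
    rw [inv_mul_le_iff₀ hN']
    exact h1

omit [CompactSpace X] in
theorem Av_add (N : ℕ) (x : X) (f g : C(X, ℂ)) : Av h N x (f + g) = Av h N x f + Av h N x g := by
  unfold Av
  rw [← mul_add, ← Finset.sum_add_distrib]
  rfl

omit [CompactSpace X] in
theorem Av_smul (N : ℕ) (x : X) (c : ℂ) (f : C(X, ℂ)) : Av h N x (c • f) = c * Av h N x f := by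
  unfold Av
  have h1 : ∀ i : ℕ, (c • f) ((h ^ (i : ℤ)) x) = c * f ((h ^ (i : ℤ)) x) := fun i => rfl
  simp only [h1, ← Finset.mul_sum]
  ring

theorem Av_comp (N : ℕ) (x : X) (f : C(X, ℂ)) :
    ‖Av h N x (f.comp (h : C(X, X))) - Av h N x f‖ ≤ 2 * ‖f‖ / N := by
  unfold Av
  have h1 : ∑ i ∈ Finset.range N, (f.comp (h : C(X, X))) ((h ^ (i : ℤ)) x) -
      ∑ i ∈ Finset.range N, f ((h ^ (i : ℤ)) x) = f ((h ^ (N : ℤ)) x) - f ((h ^ ((0 : ℕ) : ℤ)) x) := by
    rw [← Finset.sum_sub_distrib, ← Finset.sum_range_sub (fun i : ℕ => f ((h ^ (i : ℤ)) x))]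
    refine Finset.sum_congr rfl fun i _ => ?_
    congr 1
    simp only [ContinuousMap.comp_apply]
    congr 1
    have : (h ^ (((i + 1 : ℕ)) : ℤ)) = h * h ^ (i : ℤ) := by
      push_cast
      rw [add_comm, zpow_add, zpow_one]
    rw [this]
    rfl
  rw [← mul_sub, h1, norm_mul, norm_inv, Complex.norm_natCast]
  have h2 : ‖f ((h ^ (N : ℤ)) x) - f ((h ^ ((0 : ℕ) : ℤ)) x)‖ ≤ 2 * ‖f‖ := by
    refine (norm_sub_le _ _).trans ?_
    have := f.norm_coe_le_norm ((h ^ (N : ℤ)) x)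
    have := f.norm_coe_le_norm ((h ^ ((0 : ℕ) : ℤ)) x)
    linarith
  rw [div_eq_inv_mul]
  exact mul_le_mul_of_nonneg_left h2 (by positivity)

theorem exists_invState (x : ℕ → X) (N : ℕ → ℕ) (hN : ∀ m, m + 1 ≤ N m) :
    ∃ Λ : C(X, ℂ) →ₗ[ℂ] ℂ, IsInvState h Λ ∧
      ∀ f : C(X, ℂ), Tendsto (fun m => Av h (N m) (x m) f) (hyperfilter ℕ : Filter ℕ)
        (𝓝 (Λ f)) := by
  have hex : ∀ f : C(X, ℂ), ∃ z : ℂ,
      Tendsto (fun m => Av h (N m) (x m) f) (hyperfilter ℕ : Filter ℕ) (𝓝 z) := by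
    intro f
    have hc : IsCompact (Metric.closedBall (0 : ℂ) ‖f‖) := isCompact_closedBall _ _
    obtain ⟨z, _, hz⟩ := hc.ultrafilter_le_nhds
      ((hyperfilter ℕ).map fun m => Av h (N m) (x m) f) (by
        rw [Ultrafilter.coe_map, le_principal_iff, mem_map]
        refine Filter.univ_mem' fun m => ?_
        simp only [Set.mem_preimage, mem_closedBall_zero_iff]
        exact norm_Av_le h _ _ _)
    exact ⟨z, hz⟩
  choose F hF using hex
  have hne : (hyperfilter ℕ : Filter ℕ).NeBot := inferInstance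
  have hcof : (hyperfilter ℕ : Filter ℕ) ≤ atTop := by
    rw [← Nat.cofinite_eq_atTop]
    exact hyperfilter_le_cofinite
  let Λ : C(X, ℂ) →ₗ[ℂ] ℂ :=
    { toFun := F
      map_add' := fun f g => by
        refine tendsto_nhds_unique (hF (f + g)) ?_
        exact ((hF f).add (hF g)).congr fun m => (Av_add h _ _ _ _).symm
      map_smul' := fun c f => by
        refine tendsto_nhds_unique (hF (c • f)) ?_
        exact ((hF f).const_mul c).congr fun m => (Av_smul h _ _ _ _).symm }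
  refine ⟨Λ, ⟨?_, ?_, ?_⟩, hF⟩
  · intro f hf
    have hre : ∀ m, 0 ≤ (Av h (N m) (x m) f).re := by
      intro m
      unfold Av
      have h1 : ((N m : ℂ))⁻¹ = (((N m : ℝ)⁻¹ : ℝ) : ℂ) := by push_cast; rfl
      rw [h1, Complex.re_ofReal_mul, Complex.re_sum]
      refine mul_nonneg (by positivity) (Finset.sum_nonneg fun i _ => (hf _).1)
    have him : ∀ m, (Av h (N m) (x m) f).im = 0 := by
      intro m
      unfold Av
      have h1 : ((N m : ℂ))⁻¹ = (((N m : ℝ)⁻¹ : ℝ) : ℂ) := by push_cast; rfl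
      rw [h1, Complex.im_ofReal_mul, Complex.im_sum, Finset.sum_eq_zero fun i _ => (hf _).2,
        mul_zero]
    refine ⟨ge_of_tendsto' ((Complex.continuous_re.tendsto _).comp (hF f)) hre, ?_⟩
    have h2 := (Complex.continuous_im.tendsto _).comp (hF f)
    refine tendsto_nhds_unique h2 ?_
    refine tendsto_const_nhds.congr fun m => ?_
    exact (him m).symm
  · refine tendsto_nhds_unique (hF 1) ?_
    refine tendsto_const_nhds.congr fun m => ?_
    unfold Av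
    have : ((N m : ℂ)) ≠ 0 := by
      have := hN m
      exact_mod_cast (by omega : N m ≠ 0)
    simp [this]
  · intro f
    have h1 : Tendsto (fun m => Av h (N m) (x m) (f.comp (h : C(X, X))) - Av h (N m) (x m) f)
        (hyperfilter ℕ : Filter ℕ) (𝓝 (F (f.comp (h : C(X, X))) - F f)) := (hF _).sub (hF _)
    have h2 : Tendsto (fun m => Av h (N m) (x m) (f.comp (h : C(X, X))) - Av h (N m) (x m) f)
        (hyperfilter ℕ : Filter ℕ) (𝓝 0) := by
      refine Tendsto.mono_left ?_ hcof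
      refine squeeze_zero_norm (a := fun m : ℕ => 2 * ‖f‖ * (1 / ((m : ℝ) + 1))) (fun m => ?_) ?_
      · refine (Av_comp h _ _ _).trans ?_
        rw [div_eq_mul_one_div]
        refine mul_le_mul_of_nonneg_left ?_ (by positivity)
        have : ((m : ℝ) + 1) ≤ N m := by exact_mod_cast hN m
        exact one_div_le_one_div_of_le (by positivity) this
      · have := tendsto_one_div_add_atTop_nhds_zero_nat (𝕜 := ℝ)
        simpa using this.const_mul (2 * ‖f‖)
    exact sub_eq_zero.1 (tendsto_nhds_unique h1 h2)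

end states

/-! ### The module -/

theorem trC_apply {X : Type} [TopologicalSpace X] {h : X ≃ₜ X} {n : ℕ} {𝒜 : Type}
    [CStarAlgebra 𝒜] (M : Model h n 𝒜)
    (hcont : ∀ (T : 𝒜) (p q : ℤ × Fin n), Continuous fun x => entry (M.fib x T) p q)
    (T : 𝒜) (x : X) : trC M T x = ∑ e : Fin n, entry (M.fib x T) (0, e) (0, e) := by
  have hc : Continuous fun x => ∑ e : Fin n, entry (M.fib x T) (0, e) (0, e) :=
    continuous_finsetSum _ fun e _ => hcont T _ _
  unfold trC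
  rw [dif_pos hc]
  rfl

theorem trC_re {X : Type} [TopologicalSpace X] {h : X ≃ₜ X} {n : ℕ} {𝒜 : Type}
    [CStarAlgebra 𝒜] (M : Model h n 𝒜)
    (hcont : ∀ (T : 𝒜) (p q : ℤ × Fin n), Continuous fun x => entry (M.fib x T) p q)
    (T : 𝒜) (x : X) : (trC M T x).re = tr0 M T x := by
  rw [trC_apply M hcont, Complex.re_sum]
  rfl

/-- Module Q3 (from MB). -/
theorem q3 (hMB : MBStmt) : Q3Stmt := by
  intro X _ _ _ h n 𝒜 _ _ _ M a b r ha hb hr hdim c hc hac hbc κ hκ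
  obtain ⟨-, -, -, hcont, -, -⟩ := hMB X h n 𝒜 M
  by_contra hcon
  push Not at hcon
  have hneg : ∀ m : ℕ, ∃ (x : X) (N : ℕ), m + 1 ≤ N ∧
      ∑ i ∈ Finset.range N, tr0 M (apx c b (m + 1)) ((h ^ (i : ℤ)) x) <
        (r + 1 / ((m : ℝ) + 1)) * N + ∑ i ∈ Finset.range N,
          tr0 M (cfcC (fun t => clamp (t / κ)) ((c⁻¹ : ℝ) • a)) ((h ^ (i : ℤ)) x) := by
    intro m
    have h1 := hcon (m + 1) (m + 1) (1 / ((m : ℝ) + 1)) (by omega) (by positivity)
      (by rw [div_le_one (by positivity)]; linarith [Nat.cast_nonneg (α := ℝ) m])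
    unfold AvgIneq at h1
    push Not at h1
    obtain ⟨x, N, hN, h2⟩ := h1
    exact ⟨x, N, hN, h2⟩
  choose x N hN hlt using hneg
  obtain ⟨Λ, hΛ, hlim⟩ := exists_invState h x N hN
  -- the functional
  have hτlim : ∀ T : 𝒜, Tendsto (fun m => (N m : ℝ)⁻¹ * ∑ i ∈ Finset.range (N m),
      tr0 M T ((h ^ (i : ℤ)) (x m))) (hyperfilter ℕ : Filter ℕ) (𝓝 (Λ (trC M T)).re) := by
    intro T
    refine ((Complex.continuous_re.tendsto _).comp (hlim (trC M T))).congr fun m => ?_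
    simp only [Function.comp_apply]
    unfold Av
    have h1 : ((N m : ℂ))⁻¹ = (((N m : ℝ)⁻¹ : ℝ) : ℂ) := by push_cast; rfl
    rw [h1, Complex.re_ofReal_mul, Complex.re_sum]
    simp only [trC_re M hcont]
  have hτ : PosFun fun T : 𝒜 => (Λ (trC M T)).re := by
    refine ⟨fun S T hST => ?_, fun S T => ?_, fun d T => ?_⟩
    · refine le_of_tendsto_of_tendsto' (hτlim S) (hτlim T) fun m => ?_
      exact mul_le_mul_of_nonneg_left (Finset.sum_le_sum fun i _ => tr0_mono M hST _)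
        (by positivity)
    · refine tendsto_nhds_unique (hτlim (S + T)) ?_
      refine ((hτlim S).add (hτlim T)).congr fun m => ?_
      simp only [tr0_add, Finset.sum_add_distrib]
      ring
    · refine tendsto_nhds_unique (hτlim (d • T)) ?_
      refine ((hτlim T).const_mul d).congr fun m => ?_
      simp only [tr0_smul, ← Finset.mul_sum]
      ring
  obtain ⟨La, hLa1, hLa2, -⟩ := hτ.bound ha hc hac
  obtain ⟨Lb, hLb1, -, hLb3⟩ := hτ.bound hb hc hbc
  have hda : dLam M Λ a = La := hLa1.limUnder_eq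
  have hdb : dLam M Λ b = Lb := hLb1.limUnder_eq
  have hmain := hdim Λ hΛ
  rw [hda, hdb] at hmain
  have hcof : (hyperfilter ℕ : Filter ℕ) ≤ atTop := by
    rw [← Nat.cofinite_eq_atTop]
    exact hyperfilter_le_cofinite
  have hle : Lb ≤ r + (Λ (trC M (cfcC (fun t => clamp (t / κ)) ((c⁻¹ : ℝ) • a)))).re := by
    refine hLb3 _ fun k hk => ?_
    have h1 : Tendsto (fun m : ℕ => (r + 1 / ((m : ℝ) + 1)) + (N m : ℝ)⁻¹ *
        ∑ i ∈ Finset.range (N m),
          tr0 M (cfcC (fun t => clamp (t / κ)) ((c⁻¹ : ℝ) • a)) ((h ^ (i : ℤ)) (x m)))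
        (hyperfilter ℕ : Filter ℕ)
        (𝓝 ((r + 0) + (Λ (trC M (cfcC (fun t => clamp (t / κ)) ((c⁻¹ : ℝ) • a)))).re)) := by
      refine Tendsto.add (Tendsto.add tendsto_const_nhds ?_) (hτlim _)
      exact (tendsto_one_div_add_atTop_nhds_zero_nat (𝕜 := ℝ)).mono_left hcof
    rw [add_zero] at h1
    refine le_of_tendsto_of_tendsto (hτlim (apx c b k)) h1 ?_
    have h2 : ∀ᶠ m : ℕ in (hyperfilter ℕ : Filter ℕ), k ≤ m := hcof (eventually_ge_atTop k)
    filter_upwards [h2] with m hm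
    have h3 : ∑ i ∈ Finset.range (N m), tr0 M (apx c b k) ((h ^ (i : ℤ)) (x m)) ≤
        ∑ i ∈ Finset.range (N m), tr0 M (apx c b (m + 1)) ((h ^ (i : ℤ)) (x m)) :=
      Finset.sum_le_sum fun i _ => tr0_mono M (apx_mono hb hc hbc hk (by omega)) _
    have h4 := (h3.trans_lt (hlt m)).le
    have hNpos : (0 : ℝ) < N m := by
      have := hN m
      exact_mod_cast (by omega : 0 < N m)
    have h5 := mul_le_mul_of_nonneg_left h4 (inv_pos.2 hNpos).le
    rw [mul_add, mul_comm (r + 1 / ((m : ℝ) + 1)) (N m : ℝ), inv_mul_cancel_left₀ hNpos.ne'] at h5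
    exact h5
  have := hLa2 κ hκ
  linarith

end Pool.Agent.H24.RC

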